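import Pool.Agent.Y881.DS.Rows

/-!
# Difference sums over linear images of planar sets with long rows: one character, all directions

For planar sets `P`, `Q` whose rows have at least `p^ε` points (and no row of `Q` contains more than
`p^(-ε) |Q|` points) and for every nonprincipal `χ`, all directions `t` outside a set of at most
`p^(1/2-c)` elements satisfy `∑_{b ∈ Q} |∑_{a ∈ P} β(a) χ(a₁ + t a₂ - b₁ - t b₂)| ≤ p^(-c) |P| |Q|`.
For `P = Q = X × Y` these are the difference sums over the sets `X + tY`.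

Outline: for a fixed row the numbers at which the sum over the row is large form a set `V` with at
most `p^(1/2+o(1))` elements by Weil's bound; if `T` is a set of `p^(1/2-c)` exceptional directions
then `t (y - b₂) - b₁` belongs to `V` for many `t ∈ T`, `b ∈ Q`. A form of Bourgain's flattening
theorem for the affine group over the field with `p` elements shows that this is impossible.
-/

set_option autoImplicit false

namespace Pool.Agent.Results.MP_cb27ba_nt.RowProjections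

open Classical in
theorem result :
    (∀ ε : ℝ, 0 < ε → ∃ c : ℝ, 0 < c ∧ ∃ P₀ : ℕ, ∀ p : ℕ, p.Prime → P₀ ≤ p →
      ∀ χ : DirichletCharacter ℂ p, χ ≠ 1 → ∀ P Q : Finset (ZMod p × ZMod p),
        (∀ a ∈ P, (p : ℝ) ^ ε ≤ ((P.filter fun a' => a'.2 = a.2).card : ℝ)) →
        (∀ b ∈ Q, (p : ℝ) ^ ε ≤ ((Q.filter fun b' => b'.2 = b.2).card : ℝ)) →
        (∀ y, ((Q.filter fun b' => b'.2 = y).card : ℝ) ≤ (p : ℝ) ^ (-ε) * Q.card) →
        ∀ β : ZMod p × ZMod p → ℂ, (∀ a, ‖β a‖ ≤ 1) →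
          ({t : ZMod p | (p : ℝ) ^ (-c) * (P.card * Q.card) <
            ∑ b ∈ Q, ‖∑ a ∈ P, β a * χ ((a.1 + t * a.2) - (b.1 + t * b.2))‖}.ncard : ℝ)
            ≤ (p : ℝ) ^ (1 / 2 - c)) ∧
    (∀ ε : ℝ, 0 < ε → ∃ τ : ℝ, 0 < τ ∧ ∃ P₀ : ℕ, ∀ p : ℕ, p.Prime → P₀ ≤ p →
      ∀ χ : DirichletCharacter ℂ p, χ ≠ 1 → ∀ X Y : Finset (ZMod p),
        (p : ℝ) ^ ε ≤ X.card → (p : ℝ) ^ ε ≤ Y.card →
          ({t : ZMod p | ((X ×ˢ Y).card : ℝ) ^ (2 - τ) ≤
            ‖∑ a ∈ X ×ˢ Y, ∑ b ∈ X ×ˢ Y, χ ((a.1 + t * a.2) - (b.1 + t * b.2))‖}.ncard : ℝ)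
            ≤ (p : ℝ) ^ (1 / 2 - τ)) := by
  refine ⟨fun ε hε => ?_, fun ε hε => ?_⟩
  · obtain ⟨c, hc, P₀, h⟩ := Pool.Agent.Y881.DS.rows ε hε
    refine ⟨c, hc, P₀, fun p hp hP χ hχ P Q h1 h2 h3 β hβ => ?_⟩
    have : Fact p.Prime := ⟨hp⟩
    exact h p hP χ hχ P Q (fun a ha => by convert h1 a ha) (fun a ha => by convert h2 a ha)
      (fun y => by convert h3 y) β hβ
  · obtain ⟨c, hc, P₀, h⟩ := Pool.Agent.Y881.DS.rows_diff ε hε
    refine ⟨c, hc, P₀, fun p hp hP χ hχ X Y hX hY => ?_⟩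
    have : Fact p.Prime := ⟨hp⟩
    have hp0 : (0 : ℝ) < p := by exact_mod_cast hp.pos
    have hXc : (0 : ℝ) < X.card := lt_of_lt_of_le (by positivity) hX
    have hYc : (0 : ℝ) < Y.card := lt_of_lt_of_le (by positivity) hY
    have hXne : X.Nonempty := by rw [← Finset.card_pos]; exact_mod_cast hXc
    have hYne : Y.Nonempty := by rw [← Finset.card_pos]; exact_mod_cast hYc
    have hrow : ∀ y ∈ Y, ((X ×ˢ Y).filter fun a' : ZMod p × ZMod p => a'.2 = y).card = X.card := by
      intro y hy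
      have e : ((X ×ˢ Y).filter fun a' : ZMod p × ZMod p => a'.2 = y) = X ×ˢ {y} := by
        ext a
        simp only [Finset.mem_filter, Finset.mem_product, Finset.mem_singleton]
        constructor
        · rintro ⟨⟨h1, -⟩, h2⟩
          exact ⟨h1, h2⟩
        · rintro ⟨h1, h2⟩
          exact ⟨⟨h1, h2 ▸ hy⟩, h2⟩
      rw [e, Finset.card_product, Finset.card_singleton, mul_one]
    have h1 := h p hP χ hχ (X ×ˢ Y) (hXne.product hYne)
    refine h1 (fun a ha => ?_) (fun y => ?_)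
    · have h2 := hrow a.2 (Finset.mem_product.1 ha).2
      have h3 : (p : ℝ) ^ ε ≤
          (((X ×ˢ Y).filter fun a' : ZMod p × ZMod p => a'.2 = a.2).card : ℝ) := by
        rw [h2]; exact hX
      convert h3
    · have h3 : (((X ×ˢ Y).filter fun a' : ZMod p × ZMod p => a'.2 = y).card : ℝ) ≤
          (p : ℝ) ^ (-ε) * (X ×ˢ Y).card := by
        rw [Finset.card_product, Real.rpow_neg hp0.le]
        push_cast
        have h4 : (((X ×ˢ Y).filter fun a' : ZMod p × ZMod p => a'.2 = y).card : ℝ) ≤ X.card := by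
          by_cases hy : y ∈ Y
          · rw [hrow y hy]
          · have e : ((X ×ˢ Y).filter fun a' : ZMod p × ZMod p => a'.2 = y) = ∅ := by
              rw [Finset.filter_eq_empty_iff]
              intro a ha h5
              exact hy (h5 ▸ (Finset.mem_product.1 ha).2)
            rw [e]
            simp
        have h5 : (1 : ℝ) ≤ ((p : ℝ) ^ ε)⁻¹ * Y.card := by
          rw [inv_mul_eq_div, le_div_iff₀ (by positivity), one_mul]
          exact hY
        calc _ ≤ (X.card : ℝ) * 1 := by rw [mul_one]; exact h4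
          _ ≤ (X.card : ℝ) * (((p : ℝ) ^ ε)⁻¹ * Y.card) := mul_le_mul_of_nonneg_left h5 hXc.le
          _ = _ := by ring
      convert h3

end Pool.Agent.Results.MP_cb27ba_nt.RowProjections
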