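import Pool.Agent.Y881.BI.Final

/-!
# Quadratic images of sets nearly invariant under a small set of bounded doubling

Let `A` be nearly invariant under the addition of a set `P` of bounded doubling with at least `p^ε`
elements.  For every nonprincipal `χ` there is a power saving for the forms with kernel
`h (a + b) χ (a - b)` over `A × A`, `h` any bounded function, and for the difference sums over the
fractional quadratic images of the dense subsets of `A`, unless many of the differences `a - a'`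
belong to a set with at most `p^(1/2-κ)` elements, `κ = κ(ε, K) > 0`.  The same holds for all but
`p^(1-β)` characters simultaneously, with `p^(β-κ)` in place of `p^(1/2-κ)`, `0 ≤ β ≤ 1/2`.

Outline: `A` is nearly invariant under a progression of length `N = p^ε'` (Freiman's theorem,
starting files).  The shifts for which the local form with kernel `h (a + b) χ (a - b)` is large
are few by Weil's bound (starting files); they form a set `V`.  The number of `s` such that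
`(s + w) / u` belongs to `V` for most `w, u ≤ U` is at most `p^(o(1)) |V| / U`, by Fourier analysis
without wrapping around modulo `p` and the bound for the divisor function.
-/

set_option autoImplicit false

namespace Pool.Agent.Results.MP_cb27ba_nt.ThickQuadraticImages

open scoped Pointwise

/-- power saving for the bilinear forms with kernel `h (a + b) χ (a - b)` over `A × A`, for all
functions `h` bounded by `1`, and for the difference sums over the images `C` of the subsets `A'`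
of `A`, `|A| ≤ p^τ |A'|`, under the maps `(α q(a) + β) / (γ q(a) + δ)`, `q(a) = u a² + v a`,
without poles in `A'`, `(u, v) ≠ (0, 0)`, `α δ ≠ β γ` -/
def Saving {p : ℕ} (χ : DirichletCharacter ℂ p) (τ : ℝ) (A : Finset (ZMod p)) : Prop :=
  (∀ f g h : ZMod p → ℂ, (∀ s, ‖h s‖ ≤ 1) →
    ‖∑ a ∈ A, ∑ b ∈ A, f a * g b * h (a + b) * χ (a - b)‖ ≤ (A.card : ℝ) ^ (1 - τ) *
      (Real.sqrt (∑ a ∈ A, ‖f a‖ ^ 2) * Real.sqrt (∑ b ∈ A, ‖g b‖ ^ 2))) ∧
  (∀ A' : Finset (ZMod p), A' ⊆ A → (A.card : ℝ) ≤ (p : ℝ) ^ τ * A'.card →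
    ∀ u v α β γ δ : ZMod p, (u ≠ 0 ∨ v ≠ 0) → α * δ - β * γ ≠ 0 →
      (∀ a ∈ A', γ * (u * a ^ 2 + v * a) + δ ≠ 0) → ∀ C : Finset (ZMod p),
      C = (A'.image fun a =>
        (α * (u * a ^ 2 + v * a) + β) * (γ * (u * a ^ 2 + v * a) + δ)⁻¹) →
      ‖∑ x ∈ C, ∑ y ∈ C, χ (x - y)‖ < (C.card : ℝ) ^ (2 - τ))

theorem result :
    ∀ ε K β : ℝ, 0 < ε → 0 ≤ β → β ≤ 1 / 2 → ∃ κ : ℝ, 0 < κ ∧ ∀ ϑ : ℝ, 0 < ϑ →
      ∃ τ : ℝ, 0 < τ ∧ ∃ p₀ : ℕ, ∀ p : ℕ, p.Prime → p₀ ≤ p →
      ∃ Ex : Finset (DirichletCharacter ℂ p), (Ex.card : ℝ) ≤ (p : ℝ) ^ (1 - β) ∧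
        (β = 1 / 2 → ∀ χ ∈ Ex, χ = 1) ∧
        ∀ χ : DirichletCharacter ℂ p, χ ∉ Ex → ∀ A P : Finset (ZMod p), A.Nonempty →
          (p : ℝ) ^ ε ≤ P.card → ((P + P).card : ℝ) ≤ K * P.card →
          ((A + P).card : ℝ) ≤ (p : ℝ) ^ τ * A.card →
          (∀ Z : Finset (ZMod p), (Z.card : ℝ) ≤ (p : ℝ) ^ (β - κ) →
            (((A ×ˢ A).filter fun t => t.1 - t.2 ∈ Z).card : ℝ) ≤
              (p : ℝ) ^ (-ϑ) * (A.card : ℝ) ^ 2) →
          Saving χ τ A := by
  intro ε K β hε _ hβ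
  obtain ⟨κ, hκ, h⟩ := Pool.Agent.Y881.BI.doub_nonconc ε K β hε hβ
  refine ⟨κ, hκ, fun ϑ hϑ => ?_⟩
  obtain ⟨τ, hτ, p₀, h⟩ := h ϑ hϑ
  refine ⟨τ, hτ, p₀, fun p hp hp₀ => ?_⟩
  have : Fact p.Prime := ⟨hp⟩
  obtain ⟨Ex, hEx, hEx2, h⟩ := h p hp₀
  exact ⟨Ex, hEx, hEx2, fun χ hχ A P h1 h2 h3 h4 h5 =>
    h χ hχ A P h1 h2 h3 h4 (fun Z hZ => by convert h5 Z hZ)⟩

end Pool.Agent.Results.MP_cb27ba_nt.ThickQuadraticImages
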