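import Pool.Agent.Y881.BI.Final

/-!
# Difference sums over unions of sets nearly invariant under progressions, of size `p^(1/2+ε) / N`

Let `D = ⊔ A i` and `D' = ⊔ B j` be disjoint unions of sets nearly invariant under progressions
with `N i`, `N' j ≥ p^ε` terms and arbitrary steps, which may be different for different pieces.
For every nonprincipal `χ` the bilinear form with kernel `χ (a - b)` over `D × D'` has a power
saving, unless for two pieces many of the differences `a - b`, `(a, b) ∈ A i × B j`, belong to a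
set with at most `p^(1/2+ε) / min (N i) (N' j)` elements.  (Sets with
`|A i| N i, |B j| N' j ≥ p^(1/2+ε')`, `ε' > 2 ε`, satisfy the hypothesis, in particular all sets
nearly invariant under progressions with `p^(1/4+ε')` terms.)

Outline: by Weil's bound for high moments the matrix `χ (s + i + j θ)`, `i, j < p^κ`, has a large
norm for at most `p^(1/2+o(1))` numbers `s`, which form a set `V`.  If the bilinear form is large
then `((a - b) / z + w) / u` belongs to `V` for many `a, b` and for most of the `w, u` up to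
`N p^(-κ)`.  The number of `s` such that `(s + w) / u` belongs to `V` for most `w, u ≤ U` is at most
`p^(o(1)) |V| / U`: the indicator function of a union of intervals of length `U` is essentially
band limited to `|k| ≤ p / U`, the dilations by `u ≤ U` do not wrap around modulo `p`, and each
frequency arises in few ways by the bound for the divisor function.
-/

set_option autoImplicit false

namespace Pool.Agent.Results.MP_cb27ba_nt.ThickSets

open scoped Pointwise

theorem result :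
    ∀ ε : ℝ, 0 < ε → ∃ τ : ℝ, 0 < τ ∧ ∃ p₀ : ℕ, ∀ p : ℕ, p.Prime → p₀ ≤ p →
      ∀ χ : DirichletCharacter ℂ p, χ ≠ 1 → ∀ (n m : ℕ) (A : Fin n → Finset (ZMod p))
        (B : Fin m → Finset (ZMod p)) (z : Fin n → ZMod p) (z' : Fin m → ZMod p)
        (N : Fin n → ℕ) (N' : Fin m → ℕ), (∀ i, z i ≠ 0) → (∀ j, z' j ≠ 0) →
        (∀ i, (p : ℝ) ^ ε ≤ N i) → (∀ j, (p : ℝ) ^ ε ≤ N' j) → (∀ i, N i ≤ p) →
        (∀ j, N' j ≤ p) →
        (∀ i, ((A i + (Finset.range (N i)).image fun k : ℕ => (k : ZMod p) * z i).card : ℝ) ≤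
          (p : ℝ) ^ τ * (A i).card) →
        (∀ j, ((B j + (Finset.range (N' j)).image fun k : ℕ => (k : ZMod p) * z' j).card : ℝ) ≤
          (p : ℝ) ^ τ * (B j).card) →
        (∀ i j, i ≠ j → Disjoint (A i) (A j)) → (∀ i j, i ≠ j → Disjoint (B i) (B j)) →
        (∀ i j, ∀ Z : Finset (ZMod p),
          (Z.card : ℝ) * (min (N i) (N' j) : ℕ) ≤ (p : ℝ) ^ (1 / 2 + ε) →
          (((A i ×ˢ B j).filter fun t => t.1 - t.2 ∈ Z).card : ℝ) ≤
            (p : ℝ) ^ (-ε) * ((A i).card * (B j).card)) →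
        ∀ D D' : Finset (ZMod p), D = Finset.univ.biUnion A → D' = Finset.univ.biUnion B →
          (∀ f g : ZMod p → ℂ, ‖∑ a ∈ D, ∑ b ∈ D', f a * g b * χ (a - b)‖ ≤
            (p : ℝ) ^ (-τ) * Real.sqrt (D.card * D'.card) *
              (Real.sqrt (∑ a ∈ D, ‖f a‖ ^ 2) * Real.sqrt (∑ b ∈ D', ‖g b‖ ^ 2))) ∧
          ∀ A' : Finset (ZMod p), A'.Nonempty → A' ⊆ D → A' ⊆ D' →
            Real.sqrt (D.card * D'.card) ≤ (p : ℝ) ^ τ * A'.card →
            ∀ α β γ δ : ZMod p, α * δ - β * γ ≠ 0 → (∀ a ∈ A', γ * a + δ ≠ 0) →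
              ∀ C : Finset (ZMod p), C = (A'.image fun a => (α * a + β) * (γ * a + δ)⁻¹) →
                ‖∑ x ∈ C, ∑ y ∈ C, χ (x - y)‖ < (C.card : ℝ) ^ (2 - τ) := by
  intro ε hε
  obtain ⟨τ, hτ, p₀, h⟩ := Pool.Agent.Y881.BI.union_pairs ε hε
  refine ⟨τ, hτ, p₀, fun p hp hp₀ χ hχ n m A B z z' N N' h1 h2 h3 h4 h5 h6 h7 h8 h9 h10 h11
    D D' h12 h13 => ?_⟩
  have : Fact p.Prime := ⟨hp⟩
  have h14 := h p hp₀ χ hχ n m A B z z' N N' h1 h2 h3 h4 h5 h6 h7 h8 h9 h10
    (fun i j Z hZ => by convert h11 i j Z hZ) D D' (by rw [h12]) (by rw [h13])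
  exact ⟨h14.1, fun A' k1 k2 k3 k4 α β γ δ k5 k6 C k7 =>
    h14.2 A' k1 k2 k3 k4 α β γ δ k5 k6 C (by rw [k7])⟩

end Pool.Agent.Results.MP_cb27ba_nt.ThickSets
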