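import Pool.Agent.Y881.BI.Final

/-!
# Sets nearly invariant under progressions: almost all characters simultaneously

For `0 ≤ β ≤ 1/2` and every large prime `p`, all but at most `p^(1-β)` of the characters `χ` modulo
`p` (for `β = 1/2`: all nonprincipal characters) have the following property, for all sets `A`
simultaneously: if `A` is nearly invariant under a progression with `N ≥ p^ε` terms then there is a
power saving for the forms with kernel `h (a + b) χ (a - b)` over `A × A` and for the difference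
sums over the fractional quadratic images of the dense subsets of `A`, unless many of the
differences `a - a'` belong to a set with at most `p^(β+ε) / N` elements.  (Sets with
`|A| N ≥ p^(β+ε')`, `ε' > 2 ε`, satisfy the hypothesis.)

Outline: as in `ThickSets`, with moments over all characters and shifts simultaneously (starting
files) for the number of exceptional characters.
-/

set_option autoImplicit false

namespace Pool.Agent.Results.MP_cb27ba_nt.ThickUniform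

open scoped Pointwise

/-- power saving for the bilinear forms with kernel `h (a + b) χ (a - b)` over `A × A`, for all
functions `h` bounded by `1`, and for the difference sums over the images `C` of the subsets `A'`
of `A`, `|A| ≤ p^τ |A'|`, under the maps `(α q(a) + β) / (γ q(a) + δ)`, `q(a) = u a² + v a`,
without poles in `A'`, `(u, v) ≠ (0, 0)`, `α δ ≠ β γ` -/
def Saving {p : ℕ} (χ : DirichletCharacter ℂ p) (τ : ℝ) (A : Finset (ZMod p)) : Prop :=
  (∀ f g h : ZMod p → ℂ, (∀ s, ‖h s‖ ≤ 1) →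
    ‖∑ a ∈ A, ∑ b ∈ A, f a * g b * h (a + b) * χ (a - b)‖ ≤ (A.card : ℝ) ^ (1 - τ) *
      (Real.sqrt (∑ a ∈ A, ‖f a‖ ^ 2) * Real.sqrt (∑ b ∈ A, ‖g b‖ ^ 2))) ∧
  (∀ A' : Finset (ZMod p), A' ⊆ A → (A.card : ℝ) ≤ (p : ℝ) ^ τ * A'.card →
    ∀ u v α β γ δ : ZMod p, (u ≠ 0 ∨ v ≠ 0) → α * δ - β * γ ≠ 0 →
      (∀ a ∈ A', γ * (u * a ^ 2 + v * a) + δ ≠ 0) → ∀ C : Finset (ZMod p),
      C = (A'.image fun a =>
        (α * (u * a ^ 2 + v * a) + β) * (γ * (u * a ^ 2 + v * a) + δ)⁻¹) →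
      ‖∑ x ∈ C, ∑ y ∈ C, χ (x - y)‖ < (C.card : ℝ) ^ (2 - τ))

theorem result :
    ∀ ε β : ℝ, 0 < ε → 0 ≤ β → β ≤ 1 / 2 → ∃ τ : ℝ, 0 < τ ∧ ∃ p₀ : ℕ, ∀ p : ℕ, p.Prime →
      p₀ ≤ p → ∃ Ex : Finset (DirichletCharacter ℂ p), (Ex.card : ℝ) ≤ (p : ℝ) ^ (1 - β) ∧
        (β = 1 / 2 → ∀ χ ∈ Ex, χ = 1) ∧
        ∀ χ : DirichletCharacter ℂ p, χ ∉ Ex → ∀ (A : Finset (ZMod p)) (z : ZMod p) (N : ℕ),
          A.Nonempty → z ≠ 0 → (p : ℝ) ^ ε ≤ N → N ≤ p →
          ((A + (Finset.range N).image fun i : ℕ => (i : ZMod p) * z).card : ℝ) ≤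
            (p : ℝ) ^ τ * A.card →
          (∀ Z : Finset (ZMod p), (Z.card : ℝ) * N ≤ (p : ℝ) ^ (β + ε) →
            (((A ×ˢ A).filter fun t => t.1 - t.2 ∈ Z).card : ℝ) ≤
              (p : ℝ) ^ (-ε) * (A.card : ℝ) ^ 2) →
          Saving χ τ A := by
  intro ε β hε _ hβ
  obtain ⟨τ, hτ, p₀, h⟩ := Pool.Agent.Y881.BI.nonconc_gen ε β hε hβ
  refine ⟨τ, hτ, p₀, fun p hp hp₀ => ?_⟩
  have : Fact p.Prime := ⟨hp⟩
  obtain ⟨Ex, hEx, hEx2, h⟩ := h p hp₀
  exact ⟨Ex, hEx, hEx2, fun χ hχ A z N h1 h2 h3 h4 h5 h6 =>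
    h χ hχ A z N h1 h2 h3 h4 h5 (fun Z hZ => by convert h6 Z hZ)⟩

end Pool.Agent.Results.MP_cb27ba_nt.ThickUniform
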